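import Mathlib
import Pool.Agent.H479R3.OG4

/-!
# `S₁(Ω, Ω)` versus `S₁(Ω, O^{ω-gp})` for sets of reals

Definitions (in `Pool/Agent/H479R3/OG2.lean`): `OpenCover`, `OmegaCover`, `OmegaGroupable`, `S1`.

Part 1: under CH there is a set of reals with `S₁(Ω, O^{ω-gp})` but without `S₁(Ω, Ω)`.
Part 2: if the Borel conjecture holds (every strong measure zero set of reals is countable) then
the two properties are equivalent for every set of reals.
Since CH and the Borel conjecture are both consistent with ZFC, the equality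
`S₁(Ω, Ω) = S₁(Ω, O^{ω-gp})` is independent of ZFC.

Idea of part 1.  By recursion of length `ω₁` we choose `(p_a, q_a)` in `2^ω × 2^ω`, where `p_a` and
`q_a` are generic but differ only on a very sparse infinite set.  The set `X` consists of the
finite modifications of the `p_a` (with first digit `0`) and of the `q_a` (with first digit `1`).
For every sequence of intervals and patterns there is a countable set of indices such that every
finite set of the other `p_a`, `q_a` shows infinitely many of the patterns simultaneously; this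
gives `S₁(Ω, O^{ω-gp})`.  The sparse difference sets dominate, so `S₁(Ω, Ω)` fails.
-/

set_option autoImplicit false

namespace Pool.Agent.Results.MP_ef066b_gt.OmegaGroupableIndependent

open Set Pool.Agent.H479R3.OG

/-- Strong measure zero sets of reals. -/
def StrongMeasureZero (X : Set ℝ) : Prop :=
  ∀ ε : ℕ → ℝ, (∀ n, 0 < ε n) → ∃ I : ℕ → Set ℝ,
    (∀ n, Bornology.IsBounded (I n) ∧ Metric.diam (I n) < ε n) ∧ X ⊆ ⋃ n, I n

/-- Borel's conjecture. -/
def BorelConjecture : Prop := ∀ X : Set ℝ, StrongMeasureZero X → X.Countable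

/-- The property `S₁(Ω, Ω)` of a set of reals (as a subspace). -/
def S1OmegaOmega (X : Set ℝ) : Prop := S1 (OmegaCover X) (OmegaCover X)

/-- The property `S₁(Ω, O^{ω-gp})` of a set of reals (as a subspace). -/
def S1OmegaGroupable (X : Set ℝ) : Prop := S1 (OmegaCover X) (OmegaGroupable X)

theorem ch_part (CH : Cardinal.continuum.{0} = Cardinal.aleph 1) :
    ∃ X : Set ℝ, S1OmegaGroupable X ∧ ¬ S1OmegaOmega X := by
  obtain ⟨G, hG0, -, hsp, hinf, hs⟩ := construction CH
  obtain ⟨ι, -, hιc, hιi⟩ := (isClosed_univ : IsClosed (univ : Set ℝ)).exists_nat_bool_injection_of_not_countable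
    Cardinal.not_countable_real
  have hemb : Topology.IsEmbedding ι := (hιc.isClosedEmbedding hιi).isEmbedding
  let e : (XX G) ≃ₜ (ι '' (XX G)) := hemb.homeomorphImage (XX G)
  let c : (ι '' (XX G)) → ℕ → Bool := fun y => (e.symm y : ℕ → Bool)
  have hc : Topology.IsEmbedding c := Topology.IsEmbedding.subtypeVal.comp e.symm.isEmbedding
  have hr : range c = XX G := by
    ext z
    constructor
    · rintro ⟨y, rfl⟩
      exact (e.symm y).2
    · intro hz
      exact ⟨e ⟨z, hz⟩, by simp [c]⟩
  exact ⟨ι '' (XX G), s1_groupable G hc.isInducing hc.injective hr hs hG0,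
    not_s1_omega G hc.isInducing hr hG0 hsp hinf⟩

/-- A selection property giving covers implies strong measure zero. -/
lemma smz_of_s1 (X : Set ℝ) (P : Set (Set X) → Prop) (hP : ∀ U, P U → ⋃₀ U = univ)
    (h : S1 (OmegaCover X) P) : StrongMeasureZero X := by
  classical
  intro ε hε
  let δ : ℕ → ℝ := fun n => ε n / 3
  have hδ : ∀ n, 0 < δ n := fun n => by have := hε n; simp only [δ]; linarith
  have hI : ∀ (x : ℕ → ℝ) (n : ℕ), Bornology.IsBounded (Metric.ball (x n) (δ n)) ∧
      Metric.diam (Metric.ball (x n) (δ n)) < ε n := by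
    intro x n
    refine ⟨Metric.isBounded_ball, ?_⟩
    refine lt_of_le_of_lt (Metric.diam_ball (hδ n).le) ?_
    have := hε n
    simp only [δ]; linarith
  by_cases hfin : ∃ n k : ℕ, ∃ x : ℕ → ℝ, ∀ y ∈ X, ∃ j < k, y ∈ Metric.ball (x j) (δ (Nat.pair n j))
  · obtain ⟨n, k, x, hx⟩ := hfin
    refine ⟨fun m => Metric.ball (x (Nat.unpair m).2) (δ m), fun m => hI (fun m => x (Nat.unpair m).2) m, ?_⟩
    intro y hy
    obtain ⟨j, _, hj⟩ := hx y hy
    refine mem_iUnion.2 ⟨Nat.pair n j, ?_⟩
    simpa using hj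
  · push Not at hfin
    let U : ℕ → Set (Set X) := fun n => {W | ∃ (k : ℕ) (x : ℕ → ℝ),
      W = {y : X | ∃ j < k, (y : ℝ) ∈ Metric.ball (x j) (δ (Nat.pair n j))}}
    have hUF : ∀ n, ∀ F : Set X, F.Finite → ∃ W ∈ U n, F ⊆ W := by
      intro n F hF
      let l := hF.toFinset.toList
      refine ⟨_, ⟨l.length, fun j => if h : j < l.length then ((l[j]'h : X) : ℝ) else 0, rfl⟩, ?_⟩
      intro y hy
      have : y ∈ l := by simp [l, hy]
      obtain ⟨j, hj, hjy⟩ := List.getElem_of_mem this
      refine ⟨j, hj, ?_⟩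
      simp only [hj, dif_pos, hjy]
      exact Metric.mem_ball_self (hδ _)
    have hU : ∀ n, OmegaCover X (U n) := by
      intro n
      refine ⟨⟨?_, ?_, ?_⟩, hUF n⟩
      · rintro _ ⟨k, x, rfl⟩
        have : {y : X | ∃ j < k, (y : ℝ) ∈ Metric.ball (x j) (δ (Nat.pair n j))} =
            ⋃ j ∈ Finset.range k, (Subtype.val : X → ℝ) ⁻¹' (Metric.ball (x j) (δ (Nat.pair n j))) := by
          ext y
          simp
        rw [this]
        exact isOpen_biUnion (fun j _ => Metric.isOpen_ball.preimage continuous_subtype_val)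
      · rintro ⟨k, x, hk⟩
        obtain ⟨y, hy, hy'⟩ := hfin n k x
        have : (⟨y, hy⟩ : X) ∈ (univ : Set X) := trivial
        rw [hk] at this
        obtain ⟨j, hj, hjy⟩ := this
        exact hy' j hj hjy
      · rw [eq_univ_iff_forall]
        intro y
        obtain ⟨W, hW, hyW⟩ := hUF n {y} (finite_singleton y)
        exact ⟨W, hW, hyW rfl⟩
    obtain ⟨u, hu, hPu⟩ := h U hU
    have hcov := hP _ hPu
    choose k x hkx using hu
    refine ⟨fun m => Metric.ball (x (Nat.unpair m).1 (Nat.unpair m).2) (δ m),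
      fun m => hI (fun m => x (Nat.unpair m).1 (Nat.unpair m).2) m, ?_⟩
    intro y hy
    have : (⟨y, hy⟩ : X) ∈ ⋃₀ (range u) := by rw [hcov]; trivial
    obtain ⟨_, ⟨n, rfl⟩, hyn⟩ := this
    rw [hkx n] at hyn
    obtain ⟨j, _, hj⟩ := hyn
    refine mem_iUnion.2 ⟨Nat.pair n j, ?_⟩
    simpa using hj

lemma countable_both (X : Set ℝ) (hX : X.Countable) : S1OmegaOmega X ∧ S1OmegaGroupable X := by
  classical
  rcases X.eq_empty_or_nonempty with hemp | hne
  · have hno : ∀ U : Set (Set X), ¬ OmegaCover X U := by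
      intro U hU
      obtain ⟨u, hu, _⟩ := hU.2 ∅ finite_empty
      apply hU.1.2.1
      have : u = univ := by
        rw [eq_univ_iff_forall]
        intro y
        have h1 : (y : ℝ) ∈ (∅ : Set ℝ) := hemp ▸ y.2
        exact absurd h1 (Set.notMem_empty _)
      exact this ▸ hu
    exact ⟨fun U hU => absurd (hU 0) (hno _), fun U hU => absurd (hU 0) (hno _)⟩
  · have hcX : Countable X := hX.to_subtype
    have hnX : Nonempty X := hne.to_subtype
    obtain ⟨ζ, hζ⟩ := exists_surjective_nat X
    have hbd : ∀ F : Set X, F.Finite → ∃ n, ∀ k, n ≤ k → F ⊆ ζ '' Set.Iic k := by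
      intro F hF
      choose i hi using hζ
      obtain ⟨b, hb⟩ := (hF.image i).bddAbove
      refine ⟨b, fun k hk y hy => ⟨i y, ?_, hi y⟩⟩
      exact (hb ⟨y, hy, rfl⟩).trans hk
    constructor
    · intro U hU
      have h1 : ∀ n, ∃ W ∈ U n, ζ '' Set.Iic n ⊆ W := fun n =>
        (hU n).2 _ ((Set.finite_Iic n).image ζ)
      choose u hu hu' using h1
      refine ⟨u, hu, ⟨?_, ?_, ?_⟩, ?_⟩
      · rintro _ ⟨n, rfl⟩
        exact (hU n).1.1 _ (hu n)
      · rintro ⟨n, hn⟩
        exact (hU n).1.2.1 (hn ▸ hu n)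
      · rw [eq_univ_iff_forall]
        intro y
        obtain ⟨n, hn⟩ := hbd {y} (finite_singleton y)
        exact ⟨u n, ⟨n, rfl⟩, hu' n (hn n le_rfl rfl)⟩
      · intro F hF
        obtain ⟨n, hn⟩ := hbd F hF
        exact ⟨u n, ⟨n, rfl⟩, (hn n le_rfl).trans (hu' n)⟩
    · intro U hU
      obtain ⟨O, hO, hOd⟩ := rec_choice (Y := X) (α := Set X) (fun W => {W})
        (fun k W => W ∈ U k ∧ ζ '' Set.Iic k ⊆ W)
        (by
          intro k B hB hB'
          obtain ⟨W, hW, hPW, hWB⟩ := (hU k).exists_avoid (ζ '' Set.Iic k)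
            ((Set.finite_Iic k).image ζ) B hB hB'
          refine ⟨W, ⟨hW, hPW⟩, Set.finite_singleton W, ?_, ?_⟩
          · intro h
            exact (hU _).1.2.1 ((show univ = W from h) ▸ hW)
          · rw [Set.disjoint_left]
            rintro V h hVB
            exact hWB ((show V = W from h) ▸ hVB))
      refine ⟨O, fun k => (hO k).1, ?_⟩
      refine grouping (range O) (countable_range O) ?_ ?_ (fun k => {O k}) ?_
        (fun k => Set.finite_singleton _) ?_ ?_
      · rintro _ ⟨n, rfl⟩
        exact (hU n).1.1 _ (hO n).1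
      · rintro ⟨n, hn⟩
        exact (hU n).1.2.1 (hn ▸ (hO n).1)
      · rintro k W h
        exact ⟨k, (show W = O k from h).symm⟩
      · intro W
        apply Set.Subsingleton.finite
        intro j hj k hk
        by_contra hne
        rcases lt_or_gt_of_ne hne with h | h
        · exact Set.disjoint_left.1 (hOd j k h) hj hk
        · exact Set.disjoint_left.1 (hOd k j h) hk hj
      · intro F hF
        obtain ⟨n, hn⟩ := hbd F hF
        refine (Set.Ici_infinite n).mono ?_
        intro k hk
        show F ⊆ ⋃₀ {O k}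
        rw [sUnion_singleton]
        exact (hn k hk).trans (hO k).2

/-- Main result: under CH the classes `S₁(Ω, Ω)` and `S₁(Ω, O^{ω-gp})` of sets of reals differ,
while under the Borel conjecture they coincide. -/
theorem result :
    (Cardinal.continuum.{0} = Cardinal.aleph 1 → ∃ X : Set ℝ, S1OmegaGroupable X ∧ ¬ S1OmegaOmega X) ∧
    (BorelConjecture → ∀ X : Set ℝ, S1OmegaOmega X ↔ S1OmegaGroupable X) := by
  refine ⟨ch_part, fun BC X => ⟨fun h => ?_, fun h => ?_⟩⟩
  · exact (countable_both X (BC X (smz_of_s1 X _ (fun U hU => hU.1.2.2) h))).2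
  · exact (countable_both X (BC X (smz_of_s1 X _ (fun U hU => hU.1.2.2) h))).1

end Pool.Agent.Results.MP_ef066b_gt.OmegaGroupableIndependent
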